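import Mathlib
import Pool.Agent.H8.RK.Cone

/-!
# Zariski density of good points in irreducible cones of small codimension
-/

set_option autoImplicit false

namespace Pool.Agent.H28.SD

open MvPolynomial

section

variable {σ : Type} [Fintype σ]

/-- a homogeneous polynomial at a multiple of a point -/
theorem eval_smul_hom {n : ℕ} {p : MvPolynomial σ ℂ} (hp : p.IsHomogeneous n) (t : ℂ) (a : σ → ℂ) :
    eval (t • a) p = t ^ n * eval a p := by
  rw [eval_eq', eval_eq', Finset.mul_sum]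
  refine Finset.sum_congr rfl fun d hd => ?_
  have h1 : d.degree = n := by
    have h2 := hp (mem_support_iff.1 hd)
    rw [← h2, Finsupp.degree_eq_weight_one]
    rfl
  have h3 : ∏ i, (t • a) i ^ d i = t ^ n * ∏ i, a i ^ d i := by
    rw [← h1, Finsupp.degree_eq_sum, ← Finset.prod_pow_eq_pow_sum, ← Finset.prod_mul_distrib]
    refine Finset.prod_congr rfl fun i _ => ?_
    rw [Pi.smul_apply, smul_eq_mul, mul_pow]
  rw [h3]
  ring

/-- a polynomial at a multiple of a point -/
theorem eval_smul_comp (f : MvPolynomial σ ℂ) (t : ℂ) (a : σ → ℂ) :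
    eval (t • a) f =
      ∑ n ∈ Finset.range (f.totalDegree + 1), t ^ n * eval a (homogeneousComponent n f) := by
  conv_lhs => rw [← sum_homogeneousComponent f, map_sum]
  exact Finset.sum_congr rfl fun n _ =>
    eval_smul_hom (homogeneousComponent_isHomogeneous n f) t a

/-- zero sets of homogeneous ideals are cones -/
theorem eval_smul_ideal {P : Ideal (MvPolynomial σ ℂ)}
    (hP : ∀ f ∈ P, ∀ j, homogeneousComponent j f ∈ P) {a : σ → ℂ}
    (ha : ∀ f ∈ P, eval a f = 0) (t : ℂ) : ∀ f ∈ P, eval (t • a) f = 0 := by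
  intro f hf
  rw [eval_smul_comp]
  refine Finset.sum_eq_zero fun n _ => ?_
  rw [ha _ (hP f hf n), mul_zero]

/-- if a homogeneous component does not vanish at `a`, then the polynomial does not vanish at some
multiple of `a` -/
theorem exists_scale {f : MvPolynomial σ ℂ} {a : σ → ℂ} {j : ℕ}
    (h : eval a (homogeneousComponent j f) ≠ 0) : ∃ t : ℂ, t ≠ 0 ∧ eval (t • a) f ≠ 0 := by
  classical
  let p : Polynomial ℂ := ∑ n ∈ Finset.range (f.totalDegree + 1),
    Polynomial.C (eval a (homogeneousComponent n f)) * Polynomial.X ^ n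
  have hp : ∀ t : ℂ, p.eval t = eval (t • a) f := by
    intro t
    rw [eval_smul_comp]
    simp only [p, Polynomial.eval_finset_sum, Polynomial.eval_mul, Polynomial.eval_C,
      Polynomial.eval_pow, Polynomial.eval_X]
    exact Finset.sum_congr rfl fun n _ => mul_comm _ _
  have hj : j ∈ Finset.range (f.totalDegree + 1) := by
    by_contra hj
    rw [Finset.mem_range, not_lt] at hj
    exact h (by rw [homogeneousComponent_eq_zero j f (by omega), map_zero])
  have hp0 : p ≠ 0 := by
    intro h0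
    have h1 : p.coeff j = eval a (homogeneousComponent j f) := by
      simp only [p, Polynomial.finset_sum_coeff, Polynomial.coeff_C_mul, Polynomial.coeff_X_pow]
      rw [Finset.sum_eq_single j]
      · simp
      · intro b _ hb
        rw [if_neg (Ne.symm hb), mul_zero]
      · intro hj'
        exact absurd hj hj'
    rw [h0, Polynomial.coeff_zero] at h1
    exact h h1.symm
  have hXp : Polynomial.X * p ≠ 0 := mul_ne_zero Polynomial.X_ne_zero hp0
  obtain ⟨t, ht⟩ : ∃ t : ℂ, (Polynomial.X * p).eval t ≠ 0 := by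
    by_contra hcon
    push Not at hcon
    exact hXp (Polynomial.funext fun t => by rw [hcon t, Polynomial.eval_zero])
  rw [Polynomial.eval_mul, Polynomial.eval_X, hp t] at ht
  exact ⟨t, left_ne_zero_of_mul ht, right_ne_zero_of_mul ht⟩

/-- the component of degree `i` of a multiple of a homogeneous polynomial is a multiple of it -/
theorem comp_mul_mem {n : ℕ} {q : MvPolynomial σ ℂ} (hq : q.IsHomogeneous n)
    (c : MvPolynomial σ ℂ) (i : ℕ) : homogeneousComponent i (c * q) ∈ Ideal.span {q} := by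
  have h1 : homogeneousComponent i (c * q) = ∑ m ∈ Finset.range (c.totalDegree + 1),
      homogeneousComponent i (homogeneousComponent m c * q) := by
    conv_lhs => rw [← sum_homogeneousComponent c, Finset.sum_mul, map_sum]
  rw [h1]
  refine Ideal.sum_mem _ fun m _ => ?_
  have h2 : homogeneousComponent m c * q ∈ homogeneousSubmodule σ ℂ (m + n) :=
    (homogeneousComponent_isHomogeneous m c).mul hq
  rw [homogeneousComponent_of_mem h2]
  split_ifs
  · exact Ideal.mul_mem_left _ _ (Ideal.mem_span_singleton_self q)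
  · exact Ideal.zero_mem _

/-- adding a homogeneous polynomial to a homogeneous ideal -/
theorem sup_hom {P : Ideal (MvPolynomial σ ℂ)} (hP : ∀ f ∈ P, ∀ j, homogeneousComponent j f ∈ P)
    {n : ℕ} {q : MvPolynomial σ ℂ} (hq : q.IsHomogeneous n) :
    ∀ f ∈ P ⊔ Ideal.span {q}, ∀ j, homogeneousComponent j f ∈ P ⊔ Ideal.span {q} := by
  intro f hf j
  obtain ⟨p, hp, b, hb, rfl⟩ := Submodule.mem_sup.1 hf
  obtain ⟨c, rfl⟩ := Ideal.mem_span_singleton'.1 hb
  rw [map_add]
  exact Ideal.add_mem _ (Ideal.mem_sup_left (hP p hp j))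
    (Ideal.mem_sup_right (comp_mul_mem hq c j))

/-- the dimension drops -/
theorem dim_drop (P : Ideal (MvPolynomial σ ℂ)) [P.IsPrime] {q : MvPolynomial σ ℂ} (hq : q ∉ P) :
    ringKrullDim (MvPolynomial σ ℂ ⧸ (P ⊔ Ideal.span {q})) + 1 ≤
      ringKrullDim (MvPolynomial σ ℂ ⧸ P) := by
  have hle : P ≤ P ⊔ Ideal.span {q} := le_sup_left
  refine ringKrullDim_succ_le_of_surjective (Ideal.Quotient.factor hle)
    (Ideal.Quotient.factor_surjective hle) (r := Ideal.Quotient.mk P q) ?_ ?_
  · rw [mem_nonZeroDivisors_iff_ne_zero]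
    rwa [Ne, Ideal.Quotient.eq_zero_iff_mem]
  · rw [Ideal.Quotient.factor_mk, Ideal.Quotient.eq_zero_iff_mem]
    exact Ideal.mem_sup_right (Ideal.mem_span_singleton_self q)

/-- the dimension of a domain over a polynomial ring is a number -/
theorem dim_nat (P : Ideal (MvPolynomial σ ℂ)) [P.IsPrime] :
    ∃ D : ℕ, ringKrullDim (MvPolynomial σ ℂ ⧸ P) = (D : WithBot ℕ∞) ∧ D ≤ Fintype.card σ := by
  have h1 : ringKrullDim (MvPolynomial σ ℂ ⧸ P) ≤ (Fintype.card σ : WithBot ℕ∞) := by
    refine (ringKrullDim_quotient_le P).trans ?_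
    rw [MvPolynomial.ringKrullDim_of_isNoetherianRing, ringKrullDim_eq_zero_of_field]
    simp
  have h2 : (0 : WithBot ℕ∞) ≤ ringKrullDim (MvPolynomial σ ℂ ⧸ P) :=
    ringKrullDim_nonneg_of_nontrivial
  generalize ringKrullDim (MvPolynomial σ ℂ ⧸ P) = x at h1 h2
  induction x using WithBot.recBotCoe with
  | bot => simp at h2
  | coe x =>
    induction x using ENat.recTopCoe with
    | top =>
      exfalso
      have h3 : (⊤ : ℕ∞) ≤ (Fintype.card σ : ℕ∞) := by exact_mod_cast h1
      exact (ENat.coe_ne_top _) (top_le_iff.1 h3)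
    | coe D => exact ⟨D, rfl, by exact_mod_cast h1⟩

end

/-- S-MISS as a statement: in every open set of `R`-tuples there is one whose span misses a given
cone of codimension at least `R` -/
def Miss (σ : Type) [Fintype σ] : Prop :=
  ∀ (J : Ideal (MvPolynomial σ ℂ)), (∀ f ∈ J, ∀ j, homogeneousComponent j f ∈ J) →
    ∀ R : ℕ, ringKrullDim (MvPolynomial σ ℂ ⧸ J) + (R : WithBot ℕ∞) ≤
      (Fintype.card σ : WithBot ℕ∞) →
    ∀ U : Set (Fin R → σ → ℂ), IsOpen U → U.Nonempty →
      ∃ v ∈ U, ∀ lam : Fin R → ℂ, (∀ f ∈ J, eval (∑ r, lam r • v r) f = 0) → lam = 0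

/-- S-DENS: if open sets of tuples have good spans, then the good points are Zariski dense in every
irreducible cone of small codimension -/
theorem dens {σ : Type} [Fintype σ] (hMiss : Miss σ) (P : Ideal (MvPolynomial σ ℂ)) [P.IsPrime]
    (hP : ∀ f ∈ P, ∀ j, homogeneousComponent j f ∈ P) (Q : MvPolynomial σ ℂ) (hQ : Q ∉ P) (k : ℕ)
    (hdim : (Fintype.card σ : WithBot ℕ∞) ≤
      ringKrullDim (MvPolynomial σ ℂ ⧸ P) + (k : WithBot ℕ∞))
    (Good : Set (σ → ℂ)) (hs : ∀ a ∈ Good, ∀ t : ℂ, t ≠ 0 → t • a ∈ Good)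
    (h0 : (0 : σ → ℂ) ∉ Good)
    (hGood : ∀ j ≤ k, ∃ U : Set (Fin (j + 1) → σ → ℂ), IsOpen U ∧ U.Nonempty ∧
      ∀ v ∈ U, ∀ l : Fin (j + 1) → ℂ, l ≠ 0 → ∑ i, l i • v i ∈ Good) :
    ∃ a ∈ Good, (∀ f ∈ P, eval a f = 0) ∧ eval a Q ≠ 0 := by
  classical
  obtain ⟨D, hD, hDc⟩ := dim_nat P
  -- a homogeneous component outside `P`
  obtain ⟨j, hj⟩ : ∃ j, homogeneousComponent j Q ∉ P := by
    by_contra hcon
    push Not at hcon
    apply hQ
    rw [← sum_homogeneousComponent Q]
    exact Ideal.sum_mem _ fun i _ => hcon i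
  set q := homogeneousComponent j Q with hq
  have hqh : q.IsHomogeneous j := homogeneousComponent_isHomogeneous j Q
  -- the exact codimension
  set k₀ := Fintype.card σ - D with hk₀
  have hk₀k : k₀ ≤ k := by
    rw [hD] at hdim
    have : Fintype.card σ ≤ D + k := by exact_mod_cast hdim
    omega
  obtain ⟨U, hUo, hUn, hU⟩ := hGood k₀ hk₀k
  have hdimJ : ringKrullDim (MvPolynomial σ ℂ ⧸ (P ⊔ Ideal.span {q})) +
      ((k₀ + 1 : ℕ) : WithBot ℕ∞) ≤ (Fintype.card σ : WithBot ℕ∞) := by
    have h1 := dim_drop P hj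
    rw [hD] at h1
    have h2 : ringKrullDim (MvPolynomial σ ℂ ⧸ (P ⊔ Ideal.span {q})) +
        ((k₀ + 1 : ℕ) : WithBot ℕ∞) =
        (ringKrullDim (MvPolynomial σ ℂ ⧸ (P ⊔ Ideal.span {q})) + 1) + (k₀ : WithBot ℕ∞) := by
      push_cast
      rw [add_assoc, add_comm (1 : WithBot ℕ∞)]
    rw [h2]
    refine (add_le_add_left h1 _).trans ?_
    have h3 : D + k₀ ≤ Fintype.card σ := by omega
    exact_mod_cast h3
  obtain ⟨v, hvU, hv⟩ := hMiss (P ⊔ Ideal.span {q}) (sup_hom hP hqh) (k₀ + 1) hdimJ U hUo hUn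
  have hlin : LinearIndependent ℂ v := by
    rw [Fintype.linearIndependent_iff]
    intro l hl i
    by_contra hli
    have h3 := hU v hvU l (fun h => hli (by rw [h]; rfl))
    rw [hl] at h3
    exact h0 h3
  have hdimP : (Fintype.card σ : WithBot ℕ∞) ≤
      ringKrullDim (MvPolynomial σ ℂ ⧸ P) + (k₀ : WithBot ℕ∞) := by
    rw [hD]
    have h3 : Fintype.card σ ≤ D + k₀ := by omega
    exact_mod_cast h3
  obtain ⟨c, hc, hcP⟩ := Pool.Agent.H8.RK.cone_meets P hP k₀ hdimP v hlin
  set a := ∑ i, c i • v i with ha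
  have haG : a ∈ Good := hU v hvU c hc
  have hqa : eval a q ≠ 0 := by
    intro hqa
    apply hc
    apply hv c
    intro f hf
    obtain ⟨p, hp, b, hb, rfl⟩ := Submodule.mem_sup.1 hf
    obtain ⟨e, rfl⟩ := Ideal.mem_span_singleton'.1 hb
    rw [map_add, map_mul, hcP p hp, hqa, mul_zero, add_zero]
  obtain ⟨t, ht, htQ⟩ := exists_scale hqa
  exact ⟨t • a, hs a haG t ht, eval_smul_ideal hP hcP t, htQ⟩

end Pool.Agent.H28.SD
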