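import Mathlib
import Pool.Agent.H28.SD.Dens

/-!
# Open sets of linear systems with a member in a given irreducible cone, outside a given hypersurface
-/

set_option autoImplicit false

namespace Pool.Agent.H28.SD

open MvPolynomial

section

variable {σ : Type} [Fintype σ]

/-- the tuples whose span misses a cone form an open set -/
theorem isOpen_miss {J : Ideal (MvPolynomial σ ℂ)}
    (hJ : ∀ f ∈ J, ∀ j, homogeneousComponent j f ∈ J) (R : ℕ) :
    IsOpen {v : Fin R → σ → ℂ | ∀ lam : Fin R → ℂ,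
      (∀ f ∈ J, eval (∑ r, lam r • v r) f = 0) → lam = 0} := by
  rw [← isClosed_compl_iff]
  let K : Type := Metric.sphere (0 : Fin R → ℂ) 1
  haveI : CompactSpace K := isCompact_iff_compactSpace.1 (isCompact_sphere _ _)
  have hcl : IsClosed {p : (Fin R → σ → ℂ) × K |
      ∀ f ∈ J, eval (∑ r, (p.2 : Fin R → ℂ) r • p.1 r) f = 0} := by
    have h1 : {p : (Fin R → σ → ℂ) × K |
        ∀ f ∈ J, eval (∑ r, (p.2 : Fin R → ℂ) r • p.1 r) f = 0} =
        ⋂ f ∈ J, {p : (Fin R → σ → ℂ) × K |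
          eval (∑ r, (p.2 : Fin R → ℂ) r • p.1 r) f = 0} := by
      ext p
      simp only [Set.mem_iInter, Set.mem_ofPred_eq]
    rw [h1]
    refine isClosed_biInter fun f _ => ?_
    refine isClosed_eq ((MvPolynomial.continuous_eval f).comp ?_) continuous_const
    refine continuous_finsetSum _ fun r _ => ?_
    exact ((continuous_apply r).comp (continuous_subtype_val.comp continuous_snd)).smul
      ((continuous_apply r).comp continuous_fst)
  have h2 := isClosedMap_fst_of_compactSpace _ hcl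
  convert h2 using 1
  ext v
  simp only [Set.mem_compl_iff, Set.mem_ofPred_eq, Set.mem_image, Prod.exists, exists_and_right,
    exists_eq_right]
  constructor
  · intro h
    push Not at h
    obtain ⟨lam, hl, hne⟩ := h
    have hn : 0 < ‖lam‖ := norm_pos_iff.2 hne
    have hnC : ((‖lam‖ : ℝ) : ℂ) ≠ 0 := by exact_mod_cast hn.ne'
    refine ⟨⟨((‖lam‖ : ℝ) : ℂ)⁻¹ • lam, ?_⟩, ?_⟩
    · rw [mem_sphere_zero_iff_norm, norm_smul, norm_inv, Complex.norm_real, norm_norm,
        inv_mul_cancel₀ hn.ne']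
    · have h3 : (∑ r, (((‖lam‖ : ℝ) : ℂ)⁻¹ • lam) r • v r) =
          ((‖lam‖ : ℝ) : ℂ)⁻¹ • ∑ r, lam r • v r := by
        rw [Finset.smul_sum]
        exact Finset.sum_congr rfl fun r _ => by rw [Pi.smul_apply, smul_assoc]
      intro f hf
      show eval (∑ r, (((‖lam‖ : ℝ) : ℂ)⁻¹ • lam) r • v r) f = 0
      rw [h3]
      exact eval_smul_ideal hJ hl _ f hf
  · rintro ⟨⟨lam, hlam⟩, hl⟩ h
    have h4 := h lam hl
    rw [mem_sphere_zero_iff_norm, h4, norm_zero] at hlam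
    exact zero_ne_one hlam

end

/-- S-DENS for systems: an open set of tuples contains a smaller open set such that the span of each
of its tuples meets the irreducible cone `V(P)` of codimension at most `k` outside `Q = 0` -/
theorem dens2 {σ : Type} [Fintype σ] (hMiss : Miss σ) (P : Ideal (MvPolynomial σ ℂ)) [P.IsPrime]
    (hP : ∀ f ∈ P, ∀ j, homogeneousComponent j f ∈ P) (Q : MvPolynomial σ ℂ) (hQ : Q ∉ P) (k : ℕ)
    (hdim : (Fintype.card σ : WithBot ℕ∞) ≤
      ringKrullDim (MvPolynomial σ ℂ ⧸ P) + (k : WithBot ℕ∞))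
    (U : Set (Fin (k + 1) → σ → ℂ)) (hU : IsOpen U) (hne : U.Nonempty)
    (hli : ∀ v ∈ U, ∀ lam : Fin (k + 1) → ℂ, lam ≠ 0 → ∑ i, lam i • v i ≠ 0) :
    ∃ U' ⊆ U, IsOpen U' ∧ U'.Nonempty ∧ ∀ v ∈ U', ∃ lam : Fin (k + 1) → ℂ, lam ≠ 0 ∧
      (∀ f ∈ P, eval (∑ i, lam i • v i) f = 0) ∧ eval (∑ i, lam i • v i) Q ≠ 0 := by
  classical
  obtain ⟨D, hD, hDc⟩ := dim_nat P
  -- a homogeneous component outside `P`
  obtain ⟨j, hj⟩ : ∃ j, homogeneousComponent j Q ∉ P := by
    by_contra hcon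
    push Not at hcon
    apply hQ
    rw [← sum_homogeneousComponent Q]
    exact Ideal.sum_mem _ fun i _ => hcon i
  set q := homogeneousComponent j Q with hq
  have hqh : q.IsHomogeneous j := homogeneousComponent_isHomogeneous j Q
  -- the exact codimension
  set k₀ := Fintype.card σ - D with hk₀
  have hk₀k : k₀ ≤ k := by
    rw [hD] at hdim
    have : Fintype.card σ ≤ D + k := by exact_mod_cast hdim
    omega
  have hdimJ : ringKrullDim (MvPolynomial σ ℂ ⧸ (P ⊔ Ideal.span {q})) +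
      ((k₀ + 1 : ℕ) : WithBot ℕ∞) ≤ (Fintype.card σ : WithBot ℕ∞) := by
    have h1 := dim_drop P hj
    rw [hD] at h1
    have h2 : ringKrullDim (MvPolynomial σ ℂ ⧸ (P ⊔ Ideal.span {q})) +
        ((k₀ + 1 : ℕ) : WithBot ℕ∞) =
        (ringKrullDim (MvPolynomial σ ℂ ⧸ (P ⊔ Ideal.span {q})) + 1) + (k₀ : WithBot ℕ∞) := by
      push_cast
      rw [add_assoc, add_comm (1 : WithBot ℕ∞)]
    rw [h2]
    refine (add_le_add_left h1 _).trans ?_
    have h3 : D + k₀ ≤ Fintype.card σ := by omega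
    exact_mod_cast h3
  have hdimP : (Fintype.card σ : WithBot ℕ∞) ≤
      ringKrullDim (MvPolynomial σ ℂ ⧸ P) + (k₀ : WithBot ℕ∞) := by
    rw [hD]
    have h3 : Fintype.card σ ≤ D + k₀ := by omega
    exact_mod_cast h3
  have hJ := sup_hom hP hqh
  -- the first `k₀ + 1` vectors
  have hle : k₀ + 1 ≤ k + 1 := by omega
  let ρ : (Fin (k + 1) → σ → ℂ) →ₗ[ℂ] (Fin (k₀ + 1) → σ → ℂ) :=
    LinearMap.funLeft ℂ (σ → ℂ) (Fin.castLE hle)
  have hρs : Function.Surjective ρ :=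
    LinearMap.funLeft_surjective_of_injective ℂ (σ → ℂ) _ (Fin.castLE_injective hle)
  have hρo : IsOpenMap ρ := LinearMap.isOpenMap_of_finiteDimensional ρ hρs
  have hρc : Continuous ρ := LinearMap.continuous_of_finiteDimensional ρ
  have hρ : ∀ v i, ρ v i = v (Fin.castLE hle i) := fun v i => rfl
  set M : Set (Fin (k₀ + 1) → σ → ℂ) := {v | ∀ lam : Fin (k₀ + 1) → ℂ,
      (∀ f ∈ P ⊔ Ideal.span {q}, eval (∑ r, lam r • v r) f = 0) → lam = 0} with hM
  have hMo : IsOpen M := isOpen_miss hJ (k₀ + 1)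
  obtain ⟨w, ⟨v₀, hv₀, rfl⟩, hw⟩ := hMiss (P ⊔ Ideal.span {q}) hJ (k₀ + 1) hdimJ (ρ '' U)
    (hρo U hU) (hne.image _)
  refine ⟨U ∩ ρ ⁻¹' M, Set.inter_subset_left, hU.inter (hMo.preimage hρc), ⟨v₀, hv₀, hw⟩, ?_⟩
  rintro v ⟨hvU, hvM⟩
  -- extension by zero
  have hext : ∀ c : Fin (k₀ + 1) → ℂ, ∃ lam : Fin (k + 1) → ℂ,
      (c ≠ 0 → lam ≠ 0) ∧ ∑ i, lam i • v i = ∑ i, c i • ρ v i := by
    intro c
    let lam : Fin (k + 1) → ℂ := fun i => if h : (i : ℕ) < k₀ + 1 then c ⟨i, h⟩ else 0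
    have hlam : ∀ i : Fin (k₀ + 1), lam (Fin.castLE hle i) = c i := fun i => dif_pos i.2
    refine ⟨lam, ?_, ?_⟩
    · intro hc h0
      apply hc
      funext i
      rw [← hlam i, h0]
      rfl
    · symm
      refine Fintype.sum_of_injective (Fin.castLE hle) (Fin.castLE_injective hle) _ _ ?_ ?_
      · intro i hi
        have h1 : ¬ (i : ℕ) < k₀ + 1 := by
          intro h
          exact hi ⟨⟨i, h⟩, rfl⟩
        have h2 : lam i = 0 := dif_neg h1
        rw [h2, zero_smul]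
      · intro i
        rw [hlam i, hρ]
  have hlin : LinearIndependent ℂ (ρ v) := by
    rw [Fintype.linearIndependent_iff]
    intro l hl i
    by_contra hli'
    obtain ⟨lam, h1, h2⟩ := hext l
    refine hli v hvU lam (h1 fun h => hli' (by rw [h]; rfl)) ?_
    rw [h2, hl]
  obtain ⟨c, hc, hcP⟩ := Pool.Agent.H8.RK.cone_meets P hP k₀ hdimP (ρ v) hlin
  have hqa : eval (∑ i, c i • ρ v i) q ≠ 0 := by
    intro hqa
    apply hc
    apply hvM c
    intro f hf
    obtain ⟨p, hp, b, hb, rfl⟩ := Submodule.mem_sup.1 hf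
    obtain ⟨e, rfl⟩ := Ideal.mem_span_singleton'.1 hb
    rw [map_add, map_mul, hcP p hp, hqa, mul_zero, add_zero]
  obtain ⟨t, ht, htQ⟩ := exists_scale hqa
  obtain ⟨lam, h1, h2⟩ := hext (t • c)
  have h3 : ∑ i, lam i • v i = t • ∑ i, c i • ρ v i := by
    rw [h2, Finset.smul_sum]
    exact Finset.sum_congr rfl fun i _ => by rw [Pi.smul_apply, smul_assoc]
  refine ⟨lam, h1 (smul_ne_zero ht hc), ?_, ?_⟩
  · rw [h3]
    exact eval_smul_ideal hP hcP t
  · rw [h3]
    exact htQ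

end Pool.Agent.H28.SD
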