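import Mathlib

/-!
# The dimension of an integral extension
-/

set_option autoImplicit false

namespace Pool.Agent.H28.SD

/-- if `B` is integral over `A` and `A → B` is injective, then `dim A ≤ dim B` -/
theorem dim_le_of_integral_injective {A B : Type*} [CommRing A] [CommRing B] [Algebra A B]
    [Algebra.IsIntegral A B] (h : Function.Injective (algebraMap A B)) :
    ringKrullDim A ≤ ringKrullDim B := by
  refine iSup_le fun l => ?_
  have hbot : (⊥ : Ideal B).comap (algebraMap A B) ≤ l.head.asIdeal := by
    intro x hx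
    rw [Ideal.mem_comap, Ideal.mem_bot, map_eq_zero_iff _ h] at hx
    rw [hx]
    exact Ideal.zero_mem _
  obtain ⟨P, -, hP, hPl⟩ := Ideal.exists_ideal_over_prime_of_isIntegral l.head.asIdeal ⊥ hbot
  haveI := hP
  haveI : P.LiesOver (RelSeries.head l).asIdeal := ⟨hPl.symm⟩
  obtain ⟨L, hL, -, -⟩ := Ideal.exists_ltSeries_of_hasGoingUp l P
  rw [← hL]
  exact le_iSup (fun p : LTSeries (PrimeSpectrum B) => (p.length : WithBot ℕ∞)) L

end Pool.Agent.H28.SD
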